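import Mathlib

set_option autoImplicit false

namespace Pool.Agent.Results.MP_332034_al.ScalarsToCenter

universe u v w

/-- A map of lattices which is injective and preserves binary meets and binary joins. -/
def IsLatticeEmbedding {L M : Type*} [Lattice L] [Lattice M] (f : L → M) : Prop :=
  Function.Injective f ∧ (∀ x y : L, f (x ⊓ y) = f x ⊓ f y) ∧ (∀ x y : L, f (x ⊔ y) = f x ⊔ f y)

/-- Every lattice (finite or not) that embeds into the lattice of subspaces of a left vector space
over a division ring embeds into the lattice of subspaces of a vector space over a field. -/
theorem result :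
    ∀ (L : Type u) [Lattice L],
      (∃ (D : Type v) (_ : DivisionRing D) (V : Type w) (_ : AddCommGroup V) (_ : Module D V)
          (f : L → Submodule D V), IsLatticeEmbedding f) →
      ∃ (F : Type v) (_ : Field F) (W : Type w) (_ : AddCommGroup W) (_ : Module F W)
          (g : L → Submodule F W), IsLatticeEmbedding g := by
  intro L _ h
  obtain ⟨D, _, V, _, _, f, hinj, hinf, hsup⟩ := h
  refine ⟨Subring.center D, inferInstance, V, inferInstance, inferInstance,
    fun x => (f x).restrictScalars (Subring.center D), ?_, ?_, ?_⟩
  · intro x y hxy
    apply hinj
    exact Submodule.restrictScalars_injective _ _ _ hxy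
  · intro x y
    ext z
    simp [hinf]
  · intro x y
    ext z
    simp only [hsup, Submodule.restrictScalars_mem, Submodule.mem_sup]

end Pool.Agent.Results.MP_332034_al.ScalarsToCenter
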